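import Pool.Agent.T9h67.BSS.FewMain

/-!
# Deciding a square root sum problem needs tests in many functions

Let `K = ℝ` or `K = ℂ`. The problem `RootSum K n` is the set of all `x` in `K ^ n` such that one can
choose square roots `y i` of the `x i` in `K` with `∑ i, y i = 1`. It is in `NP_K`: the certificate is
`y`, and only the `n + 1` polynomials `y i ^ 2 - x i` and `∑ i, y i - 1` must be tested. It is the
restriction of `HN_K` to the systems of the `n + 1` quadratic equations `y i ^ 2 = x i`,
`∑ i, y i = 1`.

We consider algebraic decision trees of arbitrary depth. The outcome of the test at a node with the
test polynomial `g` is `σ (g x)`, where `σ` is any function with finitely many values which is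
locally constant outside `0` (over `ℝ` the sign, over `ℂ` only the test whether `g x = 0`). Now the
test polynomials are *arbitrary* polynomials in few simple functions: for some set `I` of `r + 1`
variables each factor of the test polynomial is an arbitrary polynomial in the `n - r - 1` variables
outside `I` and in functions `f k` of rank at most `r` with respect to the variables in `I` (for
instance in `r` functions; in general `f k` is any number of polynomials such that the matrix of the
partial derivatives with respect to the variables in `I` has rank at most `r`). Together these are
only `n - 1` independent functions of `x`. We show that such a tree errs arbitrarily close to every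
yes-instance if the functions `f k` are simple in one of two senses:

* the degrees of the `f k` in some variable `i` in `I` are at most `D`, where
  `r * D < 2 ^ (n - r - 1)`, or
* for some two variables `i` and `j` in `I` each `f k` is a sum of `w` separable polynomials, where
  `w ^ r ≤ 2 ^ (n - r - 1)`. Separable polynomials are the products `u * v * z` and the sums
  `u + v + z` where `u` contains no variable of `I` but `i`, `v` contains no variable of `I` but `j`,
  and `z` contains neither `i` nor `j`.

For `r = n - 1` and `w = 1` this is sharp: no tree decides `RootSum K n` with tests which are
polynomials in `n - 1` sums or products of polynomials in one variable (of any degrees), while the `n`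
coordinates suffice for every test. For fixed `r` the bound for the degrees is sharp up to a constant
factor, because `RootSum K n` can be decided with the help of one polynomial of degree `2 ^ (n - 1)`
in each variable.

Proof. Near a generic point of `RootSum K n` at which no test polynomial on the path is zero the
answer is constant, but both answers occur. So some factor `g ≠ 0` of a test polynomial vanishes on
`RootSum`. Fix generic values for the variables outside `I`, and substitute squares `y i ^ 2` for the
others. We get a polynomial `G ≠ 0` in the functions `F k` obtained from the `f k`, which vanishes on
`2 ^ (n - r)` parallel hyperplanes `∑ i ∈ I, y i = c`. Choose a maximal nonvanishing minor of the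
matrix of the partial derivatives of the `F k`, and add a further row `i₁` in `I` to its rows. The
minors of size `s ≤ r` of the rows obtained define a derivation `δ` which kills all `F k`, hence
`δ G = 0`. It follows (Darboux) that the equations of the hyperplanes, being prime factors of `G`,
divide their images under `δ`, which are all equal to the determinant `Λ` of the minor bordered by a
column of ones. So `Λ` vanishes on the hyperplanes as well. But the degree of `Λ` in `y i` is at most
`2 * r * D`, and in the second case `Λ` is, as a function of `y i` and `y j`, a sum of `2 * w ^ s`
products of functions of one variable (two row vectors enter the determinant through a bilinear form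
of rank two, for each choice of the summands in the columns); such a function vanishes on fewer than
`2 * w ^ s` parallel lines unless it is zero. So `Λ = 0`. Finally the `F k` are even in each
variable, and so the parts of `Λ` which are even and odd in `y i₁` vanish separately; the even part is
the minor we started with, a contradiction.
-/

set_option autoImplicit false

open MvPolynomial Topology

namespace Pool.Agent.Results.MP_641cb6_lc.FewFunctionTests

open Pool.Agent.T9h67.BSS

/-- **Tests in few functions.** Let `K` be `ℝ` or `ℂ`, and let `σ` be a function on `K` with finitely
many values, locally constant outside `0`. A decision tree of any depth each of whose test polynomials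
is a product of polynomials in few simple functions (`FewFunctions`) gives wrong answers arbitrarily
close to every point of `RootSum K n`. -/
theorem result {K : Type} [RCLike K] {ι : Type} [Finite ι] (σ : K → ι)
    (hσ : ∀ z, z ≠ 0 → ∀ᶠ z' in 𝓝 z, σ z' = σ z) (n : ℕ) (hn : 1 ≤ n) (T : Tree K n ι)
    (hT : T.Tests fun g => ∃ L : List (MvPolynomial (Fin n) K),
      (∀ p ∈ L, FewFunctions p) ∧ g = L.prod) :
    RootSum K n ⊆ closure {x | ¬ (T.run σ x = true ↔ x ∈ RootSum K n)} := by
  refine errs hσ hn T (hT.mono ?_)
  rintro g ⟨L, hL, rfl⟩ hv
  obtain ⟨p, hp, hpv⟩ := vanish_list_prod hn L hv
  exact List.prod_eq_zero ((eq_zero_of_fewFunctions hpv (hL p hp)) ▸ hp)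

end Pool.Agent.Results.MP_641cb6_lc.FewFunctionTests
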