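import Pool.Agent.T9h67.BSS.Theta

/-!
# Deciding a square root sum problem needs exponentially long sums of products of powers

Let `K = ℝ` or `K = ℂ`. The problem `RootSum K n` is the set of all `x` in `K ^ n` such that one can
choose square roots `y i` of the `x i` in `K` with `∑ i, y i = 1`. It is in `NP_K`: the certificate is
`y`, and only the `n + 1` polynomials `y i ^ 2 - x i` and `∑ i, y i - 1` must be tested. It is the
restriction of `HN_K` to the systems of the `n + 1` quadratic equations `y i ^ 2 = x i`,
`∑ i, y i = 1`.

We consider algebraic decision trees of arbitrary depth. The outcome of the test at a node with the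
test polynomial `g` is `σ (g x)`, where `σ` is any function with finitely many values which is
locally constant outside `0` (over `ℝ` the sign, over `ℂ` only the test whether `g x = 0`). We show:
if each test polynomial is a product of sums of `t` products of arbitrary powers of polynomials `f k`
of total degree `R`,

`∑ l < t, ∏ k, f k ^ e l k`,

and `4 R t ^ 3 < 2 ^ n`, then the tree does not decide `RootSum K n`; moreover it errs arbitrarily
close to every yes-instance. The exponents `e l k` are arbitrary. Only the degrees of the `f k` in two
of the variables count: `R` is the sum over `k` of these two degrees, and the number of the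
polynomials `f k` and their degrees in the other variables are arbitrary (so arbitrary coefficients
free of the two variables are allowed in front of the products). For instance the test polynomials may
be given by arithmetic formulas `∏ ∑ ∏ ∑` with arbitrary powers of the linear forms, of any size up to
`2 ^ (n / 4 - 1)`.

Proof. Near a generic point of `RootSum K n` at which no test polynomial on the path is zero the
answer is constant, but both answers occur. So some factor `g ≠ 0` of a test polynomial vanishes on
`RootSum`, and `g (y ^ 2)` vanishes for all `y` with `∑ i, ± y i = 1`, for all choices of the signs.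
For generic values of the other variables, `G (s, t) = g (.., s ^ 2, .., t ^ 2, ..)` is a nonzero
polynomial which vanishes on `2 ^ (n - 1)` parallel lines `s + t = c`. Put `u = s + t`, `v = s - t`.
The terms `T_l` of `G` are symmetric in `u` and `v`. The Wronskian determinants of several `T_l` with
respect to `v` are the products of these `T_l` by polynomials `D` whose degrees do not depend on the
exponents. Take a maximal family of terms with Wronskian `≠ 0`. Then the other terms are combinations
`T_m = ∑ ρ_l T_l` with `ρ_l` in `K (u)`, and `ρ_l T_l / T_m` is a quotient of polynomials `D`. By the
symmetry `ρ_l (u) / ρ_l (v)` is a quotient of polynomials of small degree, hence so is `ρ_l`.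
Now `G = ∑ R_l (u) T_l` where the rational functions `R_l` have small degree, and all `R_l` vanish at
each `c` such that `D` and the `f k` do not vanish on the line `u = c`. So `R_l = 0` and `G = 0`.
-/

set_option autoImplicit false

open MvPolynomial Topology

namespace Pool.Agent.Results.MP_641cb6_lc.PowerSumTests

open Pool.Agent.T9h67.BSS

/-- **Sums of products of powers.** Let `K` be `ℝ` or `ℂ`, and let `σ` be a function on `K` with
finitely many values, locally constant outside `0`. Let `4 R t ^ 3 < 2 ^ n`. A decision tree of any
depth each of whose test polynomials is a product of sums of `t` products of arbitrary powers of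
polynomials, whose degrees in two of the variables sum up to at most `R`, gives wrong answers
arbitrarily close to every point of `RootSum K n`. -/
theorem result {K : Type} [RCLike K] {ι : Type} [Finite ι] (σ : K → ι)
    (hσ : ∀ z, z ≠ 0 → ∀ᶠ z' in 𝓝 z, σ z' = σ z) (n t R : ℕ) (hn : 1 ≤ n)
    (hR : 4 * R * t ^ 3 < 2 ^ n) (T : Tree K n ι)
    (hT : T.Tests fun g => ∃ L : List (MvPolynomial (Fin n) K),
      (∀ p ∈ L, PowerSumLE t R p) ∧ g = L.prod) :
    RootSum K n ⊆ closure {x | ¬ (T.run σ x = true ↔ x ∈ RootSum K n)} := by
  refine errs hσ hn T (hT.mono ?_)
  rintro g ⟨L, hL, rfl⟩ hv
  obtain ⟨p, hp, hpv⟩ := vanish_list_prod hn L hv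
  exact List.prod_eq_zero ((eq_zero_of_powerSumLE hpv hR (hL p hp)) ▸ hp)

end Pool.Agent.Results.MP_641cb6_lc.PowerSumTests
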