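import Pool.Agent.T9h67.BSS.Upper

/-!
# Deciding a square root sum problem needs test polynomials of exponential split rank

Let `K = ℝ` or `K = ℂ`. The problem `RootSum K n` is the set of all `x` in `K ^ n` such that one can
choose square roots `y i` of the `x i` in `K` with `∑ i, y i = 1`. It is in `NP_K`: the certificate is
`y`, and only the `n + 1` polynomials `y i ^ 2 - x i` and `∑ i, y i - 1` must be tested. It is the
restriction of `HN_K` to the systems of the `n + 1` quadratic equations `y i ^ 2 = x i`,
`∑ i, y i = 1`.

We consider algebraic decision trees of arbitrary depth. The outcome of the test at a node with the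
test polynomial `g` is `σ (g x)`, where `σ` is any function with finitely many values which is
locally constant outside `0` (over `ℝ` the sign, over `ℂ` only the test whether `g x = 0`).

A polynomial has split rank at most `w` if for some pair of variables `i`, `j` it is a sum of `w`
products `p q` such that the variable `j` does not occur in `p` and the variable `i` does not occur in
`q`. The degrees are arbitrary and the other variables may occur in both. For instance this is so for
polynomials with at most `w` monomials, for polynomials of degree less than `w` in some variable, and
for oblivious algebraic branching programs of width `w` (in any order of the variables, with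
arbitrary polynomials of one variable as labels).

We show: if each test polynomial is a product of polynomials of split rank at most `2 ^ (n - 1)`, then
the tree does not decide `RootSum K n`, whatever its depth; moreover it errs arbitrarily close to
every yes-instance. On the other hand, test polynomials of split rank at most `2 ^ (n - 1) + 1`
suffice: one such polynomial over `ℂ`, and `n + 1` of them over `ℝ`.

Proof. Near a generic point of `RootSum K n` at which no test polynomial on the path is zero the
answer is constant, but both answers occur. So some test polynomial `g ≠ 0` vanishes on `RootSum`, and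
`g (y ^ 2)` vanishes for all `y` with `∑ i, ± y i = 1`, for all choices of the signs. For generic
values of the other variables, `G (s, t) = g (.., s ^ 2, .., t ^ 2, ..)` is a nonzero function of rank
at most `w` which vanishes on `2 ^ (n - 1)` parallel lines `s + t = c`. So its homogeneous part of
highest degree is divisible by `(s + t) ^ (2 ^ (n - 1))`, hence has more than `2 ^ (n - 1)` monomials,
and these give a triangular submatrix of the matrix of the coefficients of `G`, which has rank at
most `w`. The upper bound is given by the polynomial `P` with `P (y ^ 2) = ∏ (1 - ∑ i, ± y i)`, which
has degree at most `2 ^ (n - 1)` in each variable.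
-/

set_option autoImplicit false

open MvPolynomial Topology

namespace Pool.Agent.Results.MP_641cb6_lc.SplitRankTests

open Pool.Agent.T9h67.BSS

/-- **The exact split rank of the test polynomials.** Let `n ≥ 2`.
1. Let `K` be `ℝ` or `ℂ`, and let `σ` be a function on `K` with finitely many values, locally constant
outside `0`. A decision tree of any depth each of whose test polynomials is a product of polynomials
of split rank at most `w ≤ 2 ^ (n - 1)` gives wrong answers arbitrarily close to every point of
`RootSum K n`.
2. Over `ℂ` (with zero tests) and over `ℝ` (with sign tests) some decision tree with test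
polynomials of split rank at most `2 ^ (n - 1) + 1` decides `RootSum`. -/
theorem result (n : ℕ) (hn : 2 ≤ n) :
    (∀ (K : Type) [RCLike K] (ι : Type) [Finite ι] (σ : K → ι),
      (∀ z, z ≠ 0 → ∀ᶠ z' in 𝓝 z, σ z' = σ z) → ∀ w ≤ 2 ^ (n - 1), ∀ T : Tree K n ι,
      (T.Tests fun g => ∃ L : List (MvPolynomial (Fin n) K),
        (∀ p ∈ L, SplitRankLE w p) ∧ g = L.prod) →
      RootSum K n ⊆ closure {x | ¬ (T.run σ x = true ↔ x ∈ RootSum K n)}) ∧
    (∃ T : Tree ℂ n Bool, T.Tests (SplitRankLE (2 ^ (n - 1) + 1)) ∧
      ∀ x, T.run (fun z => decide (z = 0)) x = true ↔ x ∈ RootSum ℂ n) ∧
    (∃ T : Tree ℝ n SignType, T.Tests (SplitRankLE (2 ^ (n - 1) + 1)) ∧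
      ∀ x, T.run SignType.sign x = true ↔ x ∈ RootSum ℝ n) := by
  refine ⟨?_, exists_tree_complex hn, exists_tree_real hn⟩
  intro K _ ι _ σ hσ w hw T hT
  refine errs hσ (by omega) T (hT.mono ?_)
  rintro g ⟨L, hL, rfl⟩ hv
  obtain ⟨p, hp, hpv⟩ := vanish_list_prod (by omega) L hv
  exact List.prod_eq_zero ((eq_zero_of_splitRankLE hpv hw (hL p hp)) ▸ hp)

end Pool.Agent.Results.MP_641cb6_lc.SplitRankTests
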