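import Mathlib
import Pool.Agent.T9h47.SY.Final

/-!
# Circuits for systems of polynomial equations must break the symmetry under sign changes

Let `K` be a field of characteristic other than two, for instance `ℝ` or `ℂ`. An instance of `HN_K`
is a family of `M` polynomials in `N` unknowns of degree at most `d`. A circuit reads the
coefficients and their negatives, and its gates may compute arbitrary functions of the multisets of
the values of their children (with roles, as for the two arguments of a division or of a
comparison). Nothing else is assumed about the circuit. The answer does not change if some of the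
unknowns are replaced by their negatives. Let `G` be a group of such sign changes.

The view of a gate is its value together with the multisets of the values of its children. Let
`N(C)` be the number of different functions `P ↦ view of g on f P` of systems, where `g` is a gate
and `f` is in `G`. It measures how much the circuit breaks the symmetry: `N(C)` is at most the number
`s` of gates if the circuit is symmetric under `G` (every element of `G` extends to an automorphism),
and at most `s |G|` for all circuits.

* Lower bound on average: there are a random system with a solution in `{1, -1} ^ N` and a random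
  system without a solution in any nonzero commutative `K`-algebra between which every circuit `C`
  distinguishes with advantage at most `N(C) p / |G| ^ (1 - 2.9/d)`, where
  `p = 2 ^ (d + 2) * (6 log |G| + 3) ^ 4`.
* Lower bound: `N(C) ≥ |G| ^ (1 - 2.9/d) / p` for all circuits which accept the systems with a
  solution in `{1, -1} ^ N` and reject the systems without a solution in any `K`-algebra, for instance
  if the circuit decides `HN_K`. So if all signs may be changed, a circuit with `s` gates has a gate
  whose view has at least `2 ^ ((1 - 2.9/d) N) / (s p)` different images under sign changes: small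
  circuits must contain gates without much symmetry.
* Exhaustive search over `{1, -1} ^ N` is a circuit symmetric under all `2 ^ N` sign changes with
  `2 ^ N + 2 M (N + 1) ^ d + 1` gates.

Proof of the lower bound. Let `|G| = 2 ^ h`. The elements of `G` have arbitrary values on some set
of `h` unknowns. They are the edges of a random `d`-regular multigraph with about `2 h / d` vertices,
and the equations say that these unknowns have square one and that their product at the vertex `v`
is the sign `(-1) ^ c v`, with random sign changes from `G`. There is no solution if the sum of all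
`c v` is odd. For a gate `g` let `S` be the group of all `f` in `G` which do not change the view of
`g`, and `W` the space of all vectors orthogonal to its restriction to the edges. The group `G` is
commutative, so the sum of `|W|` over all the different spaces `W` is at most `N(C)`. Call a pair of
sets of vertices `y`, `z` bad if `y`, `z` and the complement of `y + z` contain at most half of the
vertices. With high probability the edge boundaries of `y` and `z` are both in some `W` for no bad
pair. Then for every gate `g` there are right hand sides `c`, called good for `g`, given by a linear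
function which counts the majority of the vertices, and the value of `g` at every good `c` is its
value at `c = 0`, by induction: for every child `g'` of `g` some element of `S` moves `c` to a right
hand side which is good for `g'`, and the multisets of the values of the children do not change under
`S`, so they can be replaced by their sums over `S`, which are equal for `c` and for `0`.
-/

set_option autoImplicit false

namespace Pool.Agent.Results.MP_641cb6_lc.SymmetryBreaking

open Pool.Agent.T9h47.SC Pool.Agent.T9h47.SE Pool.Agent.T9h47.SY

theorem result (K : Type) [Field K] (hK : (2 : K) ≠ 0) :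
    -- all circuits, average case
    (∀ (d M N : ℕ) (G : AddSubgroup (Fin N → ZMod 2)), 2 ≤ d → 2 ^ d ≤ Nat.card G →
      2 * Nat.log 2 (Nat.card G) ≤ M →
      ∃ (Ω : Type) (_ : Fintype Ω) (_ : Nonempty Ω)
        (P₀ P₁ : Ω → Fin M → MvPolynomial (Fin N) K),
        (∀ ω q, (P₀ ω q).totalDegree ≤ d ∧ (P₁ ω q).totalDegree ≤ d) ∧
        (∀ ω, ∃ z : Fin N → K, (∀ v, z v = 1 ∨ z v = -1) ∧
          ∀ q, MvPolynomial.eval z (P₀ ω q) = 0) ∧
        (∀ (ω : Ω) (A : Type) [CommRing A] [Algebra K A] [Nontrivial A] (z : Fin N → A),
          ∃ q, MvPolynomial.aeval z (P₁ ω q) ≠ 0) ∧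
        ∀ (C : Circuit K (Coord M N)) (Acc : Set K),
          |(Nat.card {ω // C.val (coefs (P₀ ω)) C.out ∈ Acc} : ℝ) -
            (Nat.card {ω // C.val (coefs (P₁ ω)) C.out ∈ Acc} : ℝ)| ≤
            ((views G C d).ncard : ℝ) *
              (2 ^ (d + 2) * (6 * (Nat.log 2 (Nat.card G) : ℝ) + 3) ^ 4) /
              ((Nat.card G : ℕ) : ℝ) ^ (1 - 29 / (10 * d) : ℝ) * Fintype.card Ω) ∧
    -- all circuits, worst case
    (∀ (d M N : ℕ) (G : AddSubgroup (Fin N → ZMod 2)), 2 ≤ d → 2 ^ d ≤ Nat.card G →
      2 * Nat.log 2 (Nat.card G) ≤ M → ∀ (C : Circuit K (Coord M N)) (Acc : Set K),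
      (∀ P : Fin M → MvPolynomial (Fin N) K, (∀ q, (P q).totalDegree ≤ d) →
        (∃ z : Fin N → K, (∀ v, z v = 1 ∨ z v = -1) ∧ ∀ q, MvPolynomial.eval z (P q) = 0) →
        C.val (coefs P) C.out ∈ Acc) →
      (∀ P : Fin M → MvPolynomial (Fin N) K, (∀ q, (P q).totalDegree ≤ d) →
        (∀ (A : Type) [CommRing A] [Algebra K A] [Nontrivial A] (z : Fin N → A),
          ∃ q, MvPolynomial.aeval z (P q) ≠ 0) →
        C.val (coefs P) C.out ∉ Acc) →
      ((Nat.card G : ℕ) : ℝ) ^ (1 - 29 / (10 * d) : ℝ) ≤
        ((views G C d).ncard : ℝ) *
          (2 ^ (d + 2) * (6 * (Nat.log 2 (Nat.card G) : ℝ) + 3) ^ 4)) ∧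
    -- the number of views
    (∀ (d M N : ℕ) (G : AddSubgroup (Fin N → ZMod 2)) (C : Circuit K (Coord M N)),
      (views G C d).ncard ≤ Nat.card G * @Fintype.card C.Gate C.fin ∧
      (SymSign C G → (views G C d).ncard ≤ @Fintype.card C.Gate C.fin)) ∧
    -- exhaustive search
    (∀ d M N : ℕ, ∃ C : Circuit K (Coord M N), SymSign C ⊤ ∧
      (∀ P : Fin M → MvPolynomial (Fin N) K, (∀ q, (P q).totalDegree ≤ d) →
        (C.val (coefs P) C.out = 1 ↔
          ∃ z : Fin N → K, (∀ v, z v = 1 ∨ z v = -1) ∧ ∀ q, MvPolynomial.eval z (P q) = 0)) ∧
      @Fintype.card C.Gate C.fin ≤ 2 ^ N + 2 * M * (N + 1) ^ d + 1) :=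
  ⟨fun d M N G hd hG hM => hn_breaking K hK d M N G hd hG hM,
    fun d M N G hd hG hM C Acc h1 h2 => hn_breaking_worst K hK d M N G hd hG hM C Acc h1 h2,
    fun d _ _ G C => ⟨views_le G C d, views_symm G C d⟩,
    fun d M N => ⟨hbrute K M N d, hbrute_sym, fun P hP => hbrute_decides P hP, hbrute_card⟩⟩

end Pool.Agent.Results.MP_641cb6_lc.SymmetryBreaking
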